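import Mathlib

namespace Pool.Agent.Results.MP_bfacb1_co.Counter

/-- `G` has a surjective proper `k`-edge-colouring with no rainbow copy of `H` -/
def InK {V W : Type} (G : SimpleGraph V) (H : SimpleGraph W) (k : ℕ) : Prop :=
  ∃ c : G.edgeSet → Fin k, Function.Surjective c ∧
    (∀ e f : G.edgeSet, e ≠ f → (∃ v, v ∈ e.1 ∧ v ∈ f.1) → c e ≠ c f) ∧
    ¬ ∃ φ : H →g G, Function.Injective φ ∧ Function.Injective fun e => c (φ.mapEdgeSet e)

def E : List (Fin 8 × Fin 8) := [(3, 2), (5, 3), (5, 4), (6, 2), (6, 4), (6, 5), (7, 0), (7, 1), (7, 4)]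
def G : SimpleGraph (Fin 8) := SimpleGraph.fromRel fun a b => (a, b) ∈ E
def H : SimpleGraph (Fin 6) :=
  SimpleGraph.fromRel fun a b => (a, b) ∈ [((0 : Fin 6), (1 : Fin 6)), (0, 2), (0, 3), (4, 5)]
instance : DecidableRel G.Adj := by unfold G; infer_instance
instance : DecidableRel H.Adj := by unfold H; infer_instance

def cl {k : ℕ} [NeZero k] (l : List (Fin k)) (a b : Fin 8) : Fin k :=
  l.getD (min (E.idxOf (a, b)) (E.idxOf (b, a))) 0

lemma mk {k : ℕ} [NeZero k] (l : List (Fin k)) (h1 : ∀ j, ∃ a b, G.Adj a b ∧ cl l a b = j)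
    (h2 : ∀ a b, G.Adj a b → ∀ d, G.Adj a d → b ≠ d → cl l a b ≠ cl l a d)
    (h3 : ∀ a b, G.Adj a b → ∀ c, G.Adj a c → b ≠ c → ∀ d, G.Adj a d → b ≠ d → c ≠ d →
      ∀ e f, G.Adj e f → e ∉ [a, b, c, d] → f ∉ [a, b, c, d] →
      cl l e f = cl l a b ∨ cl l e f = cl l a c ∨ cl l e f = cl l a d) : InK G H k := by
  have sy : ∀ a b, cl l a b = cl l b a := fun a b => by simp [cl, min_comm]
  refine ⟨fun e => Sym2.lift ⟨cl l, sy⟩ e.1, fun j => ?_, ?_, ?_⟩
  · obtain ⟨a, b, h, e⟩ := h1 j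
    exact ⟨⟨s(a, b), h⟩, e⟩
  · rintro ⟨e, he⟩ ⟨f, hf⟩ ne ⟨v, h, h'⟩
    obtain ⟨b, rfl⟩ := Sym2.mem_iff_exists.1 h
    obtain ⟨d, rfl⟩ := Sym2.mem_iff_exists.1 h'
    exact h2 v b he d hf (by rintro rfl; exact ne rfl)
  · rintro ⟨φ, i1, i2⟩
    have a := h3 (φ 0) (φ 1) (φ.map_adj (by decide)) (φ 2) (φ.map_adj (by decide))
      (i1.ne (by decide)) (φ 3) (φ.map_adj (by decide)) (i1.ne (by decide)) (i1.ne (by decide))
      (φ 4) (φ 5) (φ.map_adj (by decide)) (by simp [i1.eq_iff]) (by simp [i1.eq_iff])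
    have b : ∀ x y z w (h : H.Adj x y) (h' : H.Adj z w), cl l (φ x) (φ y) = cl l (φ z) (φ w) →
        s(x, y) = s(z, w) := fun x y z w h h' e =>
      congrArg Subtype.val (@i2 ⟨s(x, y), h⟩ ⟨s(z, w), h'⟩ e)
    rcases a with a | a | a <;> exact absurd (b _ _ _ _ (by decide) (by decide) a) (by decide)

def cp : List (Fin 6 → Fin 8) := [![4, 5, 6, 7, 3, 2], ![5, 3, 4, 6, 7, 0], ![5, 3, 4, 6, 7, 1],
  ![6, 2, 4, 5, 7, 0], ![6, 2, 4, 5, 7, 1], ![7, 0, 1, 4, 3, 2], ![7, 0, 1, 4, 5, 3],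
  ![7, 0, 1, 4, 6, 2], ![7, 0, 1, 4, 6, 5]]

def Q (l : List (Fin 4)) : Prop := (∀ j, j ∈ l) → ∃ φ ∈ cp,
  [cl l (φ 0) (φ 1), cl l (φ 0) (φ 2), cl l (φ 0) (φ 3), cl l (φ 4) (φ 5)].Nodup
instance (l) : Decidable (Q l) := by unfold Q; infer_instance

lemma g : ∀ φ ∈ cp, (∀ a b, H.Adj a b → G.Adj (φ a) (φ b)) ∧ ∀ a b, φ a = φ b → a = b := by
  intro φ h
  simp only [cp, List.mem_cons, List.not_mem_nil, or_false] at h
  rcases h with h | h | h | h | h | h | h | h | h <;> subst h <;> constructor <;> decide +kernel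

set_option synthInstance.maxSize 1024 in
lemma key : ∀ x2 x4 : Fin 4, x2 ≠ x4 → ∀ x5, x2 ≠ x5 → x4 ≠ x5 → ∀ x1, x1 ≠ x2 → x1 ≠ x5 →
    ∀ x3, x3 ≠ x4 → x3 ≠ x5 → ∀ x0, x0 ≠ x1 → x0 ≠ x3 → ∀ x8, x8 ≠ x2 → x8 ≠ x4 →
    ∀ x6, x6 ≠ x8 → ∀ x7, x7 ≠ x8 → x7 ≠ x6 → Q [x0, x1, x2, x3, x4, x5, x6, x7, x8] := by
  decide +kernel

lemma no4 : ¬ InK G H 4 := by
  rintro ⟨c, h1, h2, h3⟩
  let x (a b : Fin 8) (h : G.Adj a b) : Fin 4 := c ⟨s(a, b), h⟩
  have n : ∀ a b d e (h : G.Adj a b) (h' : G.Adj d e), s(a, b) ≠ s(d, e) →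
      (∃ v, v ∈ s(a, b) ∧ v ∈ s(d, e)) → x a b h ≠ x d e h' := fun a b d e h h' p q =>
    h2 _ _ (fun r => p (congrArg Subtype.val r)) q
  have m : ∀ a b (h : G.Adj a b), cl [x 3 2 (by decide), x 5 3 (by decide), x 5 4 (by decide), x 6 2 (by decide), x 6 4 (by decide), x 6 5 (by decide), x 7 0 (by decide), x 7 1 (by decide), x 7 4 (by decide)] a b
      = x a b h := by
    intro a b h
    have : (a, b) ∈ E ∨ (b, a) ∈ E := h.2
    simp only [E, List.mem_cons, Prod.mk.injEq, List.not_mem_nil, or_false, or_assoc] at this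
    rcases this with h | h | h | h | h | h | h | h | h | h | h | h | h | h | h | h | h | h <;>
      obtain ⟨rfl, rfl⟩ := h <;> first | rfl | exact congrArg c (Subtype.ext Sym2.eq_swap)
  obtain ⟨φ, hφ, nd⟩ := key (x 5 4 (by decide)) (x 6 4 (by decide)) (by apply n <;> decide) (x 6 5 (by decide)) (by apply n <;> decide)
    (by apply n <;> decide) (x 5 3 (by decide)) (by apply n <;> decide) (by apply n <;> decide) (x 6 2 (by decide))
    (by apply n <;> decide) (by apply n <;> decide) (x 3 2 (by decide)) (by apply n <;> decide)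
    (by apply n <;> decide) (x 7 4 (by decide)) (by apply n <;> decide) (by apply n <;> decide) (x 7 0 (by decide))
    (by apply n <;> decide) (x 7 1 (by decide)) (by apply n <;> decide) (by apply n <;> decide) (by
      intro j
      obtain ⟨⟨e, he⟩, rfl⟩ := h1 j
      induction e using Sym2.ind with
      | _ a b =>
        show x a b he ∈ _
        rw [← m a b he]
        have l : ∀ a b, G.Adj a b → min (E.idxOf (a, b)) (E.idxOf (b, a)) < 9 := by decide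
        unfold cl
        rw [List.getD_eq_getElem _ _ (l a b he)]
        exact List.getElem_mem _)
  obtain ⟨g1, g2⟩ := g φ hφ
  rw [m _ _ (g1 _ _ (by decide)), m _ _ (g1 _ _ (by decide)), m _ _ (g1 _ _ (by decide)),
    m _ _ (g1 _ _ (by decide))] at nd
  refine h3 ⟨⟨φ, g1 _ _⟩, g2, ?_⟩
  have he : ∀ e ∈ H.edgeSet, e = s(0, 1) ∨ e = s(0, 2) ∨ e = s(0, 3) ∨ e = s(4, 5) := by decide
  simp only [List.nodup_cons, List.mem_cons, List.not_mem_nil, or_false, not_or] at nd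
  rintro ⟨e, h⟩ ⟨f, h'⟩ r
  rcases he e h with rfl | rfl | rfl | rfl <;> rcases he f h' with rfl | rfl | rfl | rfl <;>
    first | rfl | exact absurd r nd.1.1 | exact absurd r nd.1.2.1 | exact absurd r nd.1.2.2 |
      exact absurd r nd.2.1.1 | exact absurd r nd.2.1.2 | exact absurd r nd.2.2.1 |
      exact absurd r.symm nd.1.1 | exact absurd r.symm nd.1.2.1 | exact absurd r.symm nd.1.2.2 |
      exact absurd r.symm nd.2.1.1 | exact absurd r.symm nd.2.1.2 | exact absurd r.symm nd.2.2.1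

theorem result : ∃ (n m : ℕ) (G : SimpleGraph (Fin n)) (H : SimpleGraph (Fin m)),
    InK G H 3 ∧ ¬ InK G H 4 ∧ InK G H 5 :=
  ⟨8, 6, G, H, mk [0, 1, 2, 2, 1, 0, 1, 2, 0] (by decide +kernel) (by decide +kernel) (by decide +kernel), no4,
    mk [0, 1, 2, 1, 3, 4, 1, 4, 0] (by decide +kernel) (by decide +kernel) (by decide +kernel)⟩

end Pool.Agent.Results.MP_bfacb1_co.Counter
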